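import Pool.Agent.Work.MP_376faf_co_cub.FinalC

/-! Self-avoiding polygons and walks on the square lattice have the same number up to a
quasi-polynomial factor: `mu ^ (2n) ≤ c_(2n)` and `c_(2n) exp (-B log^3 n) ≤ p_(2n)`,
for all `n`. -/

set_option autoImplicit false

namespace Pool.Agent.Results.MP_376faf_co.LogLower

open Filter

/-- number of n-step self-avoiding walks on Z^2 from the origin -/
noncomputable def walks (n : ℕ) : ℕ :=
  Nat.card {f : Fin (n+1) → ℤ × ℤ // f 0 = 0 ∧ Function.Injective f ∧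
    ∀ i : Fin n, |(f i.succ).1 - (f i.castSucc).1| + |(f i.succ).2 - (f i.castSucc).2| = 1}

/-- number of self-avoiding polygons of perimeter 2n on Z^2 up to translation (n at least 2):
rooted oriented ones divided by 4n -/
noncomputable def polygons (n : ℕ) : ℝ :=
  (Nat.card {f : ZMod (2*n) → ℤ × ℤ // f 0 = 0 ∧ Function.Injective f ∧
    ∀ i : ZMod (2*n), |(f (i+1)).1 - (f i).1| + |(f (i+1)).2 - (f i).2| = 1} : ℝ) / (4 * (n:ℝ))

theorem result : ∃ μ : ℝ,
    Tendsto (fun n : ℕ => ((walks n : ℕ) : ℝ) ^ ((1:ℝ) / (n:ℝ))) atTop (nhds μ) ∧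
    ∃ B : ℝ, 0 < B ∧ ∀ n : ℕ, 2 ≤ n →
      μ ^ (2 * n) ≤ walks (2 * n) ∧
      walks (2 * n) * Real.exp (-(B * (Real.log n) ^ 3)) ≤ polygons n := by
  obtain ⟨μ, B, h1, hB, h⟩ := Pool.Agent.Work.MP_376faf_co_cub.cub_bounds
  obtain ⟨μ', _, h2, h3⟩ := Pool.Agent.Work.MP_376faf_co_lower.exists_mu
  obtain rfl : μ' = μ := tendsto_nhds_unique h2 h1
  refine ⟨μ', h1, 9 * B, by positivity, fun n hn => ⟨h3 (2 * n), ?_⟩⟩
  have hn0 : (0:ℝ) < n := by
    have : 0 < n := by omega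
    exact_mod_cast this
  have hn2 : (2:ℝ) ≤ n := by exact_mod_cast hn
  have hL : 0 ≤ Real.log n := Real.log_nonneg (by linarith)
  have e1 : Real.log ((2 * n : ℕ) : ℝ) ≤ 2 * Real.log n := by
    have e2 : 2 * Real.log n = Real.log ((n:ℝ) ^ 2) := by
      rw [Real.log_pow]
      push_cast
      ring
    rw [e2]
    refine Real.log_le_log (by positivity) ?_
    push_cast
    nlinarith
  have e3 : 0 ≤ Real.log ((2 * n : ℕ) : ℝ) := Real.log_natCast_nonneg _
  have e4 : Real.log ((2 * n : ℕ) : ℝ) ^ 3 ≤ 8 * (Real.log n) ^ 3 := by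
    calc Real.log ((2 * n : ℕ) : ℝ) ^ 3 ≤ (2 * Real.log n) ^ 3 := pow_le_pow_left₀ e3 e1 3
      _ = _ := by ring
  have h4 := (h (2 * n) (by omega)).1
  have h5 := (h n hn).2
  calc (walks (2 * n) : ℝ) * Real.exp (-(9 * B * (Real.log n) ^ 3))
      ≤ μ' ^ (2 * n) * Real.exp (B * Real.log ((2 * n : ℕ) : ℝ) ^ 3) *
        Real.exp (-(9 * B * (Real.log n) ^ 3)) :=
        mul_le_mul_of_nonneg_right h4 (Real.exp_pos _).le
    _ = μ' ^ (2 * n) * Real.exp (B * Real.log ((2 * n : ℕ) : ℝ) ^ 3 +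
        -(9 * B * (Real.log n) ^ 3)) := by rw [mul_assoc, ← Real.exp_add]
    _ ≤ μ' ^ (2 * n) * Real.exp (-(B * (Real.log n) ^ 3)) := by
        have h0 : 0 ≤ μ' := ge_of_tendsto' h1 fun m => by positivity
        refine mul_le_mul_of_nonneg_left (Real.exp_le_exp.2 ?_) (by positivity)
        nlinarith
    _ ≤ _ := h5

end Pool.Agent.Results.MP_376faf_co.LogLower
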