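import Pool.Agent.Work.MP_376faf_co_win.Final
import Pool.Agent.Work.MP_376faf_co_gap.FinG

/-! Lower bounds for the number of self-avoiding polygons on the square lattice: polynomial
loss along lengths with bounded gaps, quasi-polynomial loss for every length. -/

set_option autoImplicit false

namespace Pool.Agent.Results.MP_376faf_co.LowerBound

open Filter
open scoped ENNReal

/-- number of n-step self-avoiding walks on Z^2 from the origin -/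
noncomputable def walks (n : ℕ) : ℕ :=
  Nat.card {f : Fin (n+1) → ℤ × ℤ // f 0 = 0 ∧ Function.Injective f ∧
    ∀ i : Fin n, |(f i.succ).1 - (f i.castSucc).1| + |(f i.succ).2 - (f i.castSucc).2| = 1}

/-- number of self-avoiding polygons of perimeter 2n on Z^2 up to translation (n at least 2):
rooted oriented ones divided by 4n -/
noncomputable def polygons (n : ℕ) : ℝ :=
  (Nat.card {f : ZMod (2*n) → ℤ × ℤ // f 0 = 0 ∧ Function.Injective f ∧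
    ∀ i : ZMod (2*n), |(f (i+1)).1 - (f i).1| + |(f (i+1)).2 - (f i).2| = 1} : ℝ) / (4 * (n:ℝ))

theorem result : ∃ μ : ℝ,
    Tendsto (fun n : ℕ => ((walks n : ℕ) : ℝ) ^ ((1:ℝ) / (n:ℝ))) atTop (nhds μ) ∧
    (∃ B : ℝ, 0 < B ∧ ∀ n : ℕ, 2 ≤ n → ∀ δ : ℝ, 0 < δ → δ ≤ 1 / 2 →
      ∃ m : ℕ, m ≤ n ∧ (n:ℝ) - m ≤ δ * n ∧
        ∀ k : ℕ, 2 ≤ k → |(k:ℝ) - m| ≤ √n →
          μ ^ (2*k) * Real.exp (-(B * (Real.log n * Real.log (1 / δ)))) ≤ polygons k) ∧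
    (∀ κ α : ℝ, 2 < κ → 4 + 8 / κ < α → ∀ᶠ n : ℕ in atTop,
      ∃ m : ℕ, n ≤ m ∧ (m:ℝ) ≤ (n:ℝ) ^ κ ∧
        ∀ k : ℕ, |(k:ℝ) - m| ≤ √(m / (Real.log m) ^ 3) →
          μ ^ (2*k) * (k:ℝ) ^ (-α) < polygons k) ∧
    (∑' N : ℕ, ((N : ℝ≥0∞) *
      ∑' n : ℕ, ENNReal.ofReal (polygons (n + N) / μ ^ (2*(n + N)))) ^ (1 / 2 : ℝ) = ⊤) ∧
    (∀ C α : ℝ, Tendsto (fun n : ℕ => polygons n / (μ ^ (2*n) * (n:ℝ) ^ (-α))) atTop (nhds C) →
      α ≤ 4) := by
  obtain ⟨μ', B, hT, hB, h⟩ := Pool.Agent.Work.MP_376faf_co_cub.cub_bounds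
  obtain ⟨μ, h1, h2, h3⟩ := Pool.Agent.Work.MP_376faf_co_lower.exists_mu
  obtain rfl : μ' = μ := tendsto_nhds_unique hT h2
  have ha : ∀ n, polygons n / μ' ^ (2*n) = Pool.Agent.Work.MP_376faf_co_lower.aN μ' n :=
    fun n => rfl
  refine ⟨μ', h2, ?_, ?_, ?_, ?_⟩
  · exact Pool.Agent.Work.MP_376faf_co_gap.main h1 h2 h3
  · intro κ α hκ hα
    exact Pool.Agent.Work.MP_376faf_co_win.window h1 h2 h3 hB (fun n hn => (h n hn).1)
      (fun n hn => (h n hn).2) hκ hα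
  · exact Pool.Agent.Work.MP_376faf_co_lower.main_tail h1 h3
  · intro C α h
    refine Pool.Agent.Work.MP_376faf_co_lower.exponent_le h1 h3 (C := C) (h.congr' ?_)
    filter_upwards [eventually_gt_atTop 0] with n hn
    have hn0 : (0:ℝ) < n := by exact_mod_cast hn
    rw [← ha, Real.rpow_neg hn0.le, ← div_eq_mul_inv, div_div_eq_mul_div]
    ring

end Pool.Agent.Results.MP_376faf_co.LowerBound
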