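import Pool.Agent.Work.MP_376faf_co_gap.FinG

/-! The ratio of consecutive self-avoiding polygon counts on the square lattice:
`p_{2n+2} / p_{2n} = mu^2 + O(log n / sqrt n)`, for every `n`. -/

set_option autoImplicit false

namespace Pool.Agent.Results.MP_376faf_co.RatioBound

open Filter

/-- number of n-step self-avoiding walks on Z^2 from the origin -/
noncomputable def walks (n : ℕ) : ℕ :=
  Nat.card {f : Fin (n+1) → ℤ × ℤ // f 0 = 0 ∧ Function.Injective f ∧
    ∀ i : Fin n, |(f i.succ).1 - (f i.castSucc).1| + |(f i.succ).2 - (f i.castSucc).2| = 1}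

/-- number of self-avoiding polygons of perimeter 2n on Z^2 up to translation (n at least 2):
rooted oriented ones divided by 4n -/
noncomputable def polygons (n : ℕ) : ℝ :=
  (Nat.card {f : ZMod (2*n) → ℤ × ℤ // f 0 = 0 ∧ Function.Injective f ∧
    ∀ i : ZMod (2*n), |(f (i+1)).1 - (f i).1| + |(f (i+1)).2 - (f i).2| = 1} : ℝ) / (4 * (n:ℝ))

theorem result : ∃ μ : ℝ,
    Tendsto (fun n : ℕ => ((walks n : ℕ) : ℝ) ^ ((1:ℝ) / (n:ℝ))) atTop (nhds μ) ∧
    ∃ A : ℝ, 0 < A ∧ ∀ n : ℕ, 2 ≤ n →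
      |polygons (n + 1) / polygons n - μ ^ 2| ≤ A * (Real.log n / √n) := by
  obtain ⟨μ, h1, h2, h3⟩ := Pool.Agent.Work.MP_376faf_co_lower.exists_mu
  obtain ⟨A, hA⟩ := Pool.Agent.Work.MP_376faf_co_gap.ratio_log h1 h2 h3
  refine ⟨μ, h2, max A 1, by positivity, fun n hn => (hA n hn).trans ?_⟩
  have hl : 0 ≤ Real.log n := Real.log_natCast_nonneg n
  rw [Real.sqrt_div' _ (by positivity), Real.sqrt_sq hl]
  exact mul_le_mul_of_nonneg_right (le_max_left _ _) (by positivity)

end Pool.Agent.Results.MP_376faf_co.RatioBound
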