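import Pool.Agent.Work.MP_376faf_co_sum.WinFin

/-! A bound for the number of self-avoiding polygons on the square lattice which holds for every
length, with a summable majorant over the blocks between consecutive squares. -/

set_option autoImplicit false

namespace Pool.Agent.Results.MP_376faf_co.WindowSum

open Filter

/-- number of n-step self-avoiding walks on Z^2 from the origin -/
noncomputable def walks (n : ℕ) : ℕ :=
  Nat.card {f : Fin (n+1) → ℤ × ℤ // f 0 = 0 ∧ Function.Injective f ∧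
    ∀ i : Fin n, |(f i.succ).1 - (f i.castSucc).1| + |(f i.succ).2 - (f i.castSucc).2| = 1}

/-- number of self-avoiding polygons of perimeter 2n on Z^2 up to translation (n at least 2):
rooted oriented ones divided by 4n -/
noncomputable def polygons (n : ℕ) : ℝ :=
  (Nat.card {f : ZMod (2*n) → ℤ × ℤ // f 0 = 0 ∧ Function.Injective f ∧
    ∀ i : ZMod (2*n), |(f (i+1)).1 - (f i).1| + |(f (i+1)).2 - (f i).2| = 1} : ℝ) / (4 * (n:ℝ))

theorem result : ∃ μ : ℝ,
    Tendsto (fun n : ℕ => ((walks n : ℕ) : ℝ) ^ ((1:ℝ) / (n:ℝ))) atTop (nhds μ) ∧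
    (∃ M : ℕ → ℝ, Summable M ∧
      ∀ n : ℕ, (n:ℝ) * (polygons n / μ ^ (2 * n)) ≤ M (Nat.sqrt n)) ∧
    Tendsto (fun n : ℕ => (n:ℝ) * (polygons n / μ ^ (2 * n))) atTop (nhds 0) := by
  obtain ⟨μ, h1, h2⟩ := Pool.Agent.Work.MP_376faf_co.exists_mu
  have hμ : Pool.Agent.Work.MP_376faf_co.IsMu μ := ⟨h1, h2⟩
  exact ⟨μ, h2, Pool.Agent.Work.MP_376faf_co_sum.window_main hμ,
    Pool.Agent.Work.MP_376faf_co.LC.pointwise hμ⟩

end Pool.Agent.Results.MP_376faf_co.WindowSum
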